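import Pool.Agent.helper56.CQ.ER1

set_option autoImplicit false

namespace Pool.Agent.helper42.CQ

open Finset Pool.Agent.helper24.CG

/-- the bound for the number of heavy vertices -/
theorem ER2_nn (N m b q : ℕ) (β : ℝ) (hm : 1 ≤ m) (hq : 3 ≤ q) (hβ : 0 < β)
    (hN : 0 ≤ Real.log N) (hl : Real.log N ≤ β * q) :
    (nn N m b q (q ^ 2) : ℝ) ≤ (2 * (m : ℝ) * (β + Real.log (1 + b) + 1) + 1) * (q : ℝ) ^ 8 := by
  have hm' : (1 : ℝ) ≤ (m : ℝ) := by exact_mod_cast hm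
  have hq3 : (3 : ℝ) ≤ (q : ℝ) := by exact_mod_cast hq
  have hlb : 0 ≤ Real.log (1 + (b : ℝ)) := Real.log_nonneg (by
    have : (0 : ℝ) ≤ (b : ℝ) := by positivity
    linarith)
  have h0 : (nn N m b q (q ^ 2) : ℝ) ≤
      ((q : ℝ) * Real.log N + (q : ℝ) ^ 2 * Real.log (1 + b) + 1) *
        (2 * (((q ^ 2 : ℕ) : ℝ)) ^ 2 * m * (q : ℝ) ^ 2) + 1 := by
    rw [nn]
    exact (Nat.ceil_lt_add_one (by positivity)).le
  push_cast at h0
  have h1 : (q : ℝ) * Real.log N ≤ β * (q : ℝ) ^ 2 := by nlinarith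
  have h2 : (1 : ℝ) ≤ (q : ℝ) ^ 2 := one_le_pow₀ (by linarith)
  have h3 : (q : ℝ) * Real.log N + (q : ℝ) ^ 2 * Real.log (1 + b) + 1 ≤
      (β + Real.log (1 + b) + 1) * (q : ℝ) ^ 2 := by nlinarith
  have h4 : 0 ≤ 2 * ((q : ℝ) ^ 2) ^ 2 * m * (q : ℝ) ^ 2 := by positivity
  have h5 := mul_le_mul_of_nonneg_right h3 h4
  have h6 : (β + Real.log (1 + b) + 1) * (q : ℝ) ^ 2 * (2 * ((q : ℝ) ^ 2) ^ 2 * m * (q : ℝ) ^ 2) =
      2 * (m : ℝ) * (β + Real.log (1 + b) + 1) * (q : ℝ) ^ 8 := by ring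
  have h7 : (1 : ℝ) ≤ (q : ℝ) ^ 8 := one_le_pow₀ (by linarith)
  rw [h6] at h5
  have h8 : (2 * (m : ℝ) * (β + Real.log (1 + b) + 1) + 1) * (q : ℝ) ^ 8 =
    2 * (m : ℝ) * (β + Real.log (1 + b) + 1) * (q : ℝ) ^ 8 + (q : ℝ) ^ 8 := by ring
  linarith

/-- the bound for `kF` -/
theorem ER2_kF (N m b q : ℕ) (β : ℝ) (hm : 1 ≤ m) (hq : 3 ≤ q) (hβ : 0 < β)
    (hN : 0 ≤ Real.log N) (hl : Real.log N ≤ β * q) (hL : 1 ≤ Real.log q) :
    kF N m b q (q ^ 2) ≤ (Real.log (6 * (m : ℝ) +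
      6 * (2 * (m : ℝ) * (β + Real.log (1 + b) + 1) + 1) + 1) + 9) * Real.log q := by
  have hm' : (1 : ℝ) ≤ (m : ℝ) := by exact_mod_cast hm
  have hq3 : (3 : ℝ) ≤ (q : ℝ) := by exact_mod_cast hq
  have hlb : 0 ≤ Real.log (1 + (b : ℝ)) := Real.log_nonneg (by
    have : (0 : ℝ) ≤ (b : ℝ) := by positivity
    linarith)
  have hn := ER2_nn N m b q β hm hq hβ hN hl
  set A := 2 * (m : ℝ) * (β + Real.log (1 + b) + 1) + 1 with hA
  have hA0 : 0 < A := by positivity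
  have h9 : (1 : ℝ) ≤ (q : ℝ) ^ 9 := one_le_pow₀ (by linarith)
  have h29 : (q : ℝ) ^ 2 ≤ (q : ℝ) ^ 9 := pow_le_pow_right₀ (by linarith) (by norm_num)
  have h1 : 3 * ((q : ℝ) + 1) * (nn N m b q (q ^ 2) : ℝ) ≤ 6 * A * (q : ℝ) ^ 9 := by
    have h2 : 3 * ((q : ℝ) + 1) ≤ 6 * q := by linarith
    calc 3 * ((q : ℝ) + 1) * (nn N m b q (q ^ 2) : ℝ) ≤ 6 * q * (A * (q : ℝ) ^ 8) :=
          mul_le_mul h2 hn (by positivity) (by positivity)
      _ = 6 * A * (q : ℝ) ^ 9 := by ring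
  have h3 : 6 * (m : ℝ) * (q : ℝ) ^ 2 + 3 * ((q : ℝ) + 1) * (nn N m b q (q ^ 2) : ℝ) + 1 ≤
      (6 * (m : ℝ) + 6 * A + 1) * (q : ℝ) ^ 9 := by nlinarith
  have h4 : 0 < 6 * (m : ℝ) * (q : ℝ) ^ 2 + 3 * ((q : ℝ) + 1) * (nn N m b q (q ^ 2) : ℝ) + 1 := by
    positivity
  have h5 : kF N m b q (q ^ 2) ≤ Real.log ((6 * (m : ℝ) + 6 * A + 1) * (q : ℝ) ^ 9) := by
    rw [kF]
    exact Real.log_le_log h4 h3
  rw [Real.log_mul (by positivity) (by positivity), Real.log_pow] at h5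
  push_cast at h5
  have h6 : 0 ≤ Real.log (6 * (m : ℝ) + 6 * A + 1) := Real.log_nonneg (by linarith)
  nlinarith

/-- the bound for `kP` -/
theorem ER2_kP (N b q : ℕ) (β : ℝ) (hq : 3 ≤ q) (hβ : 0 < β)
    (hl : Real.log N ≤ β * q) (hL : 1 ≤ Real.log q) :
    kP N q (q ^ 2) (2 * (b : ℝ) + 3) ≤
      (Real.log (6 * (2 * (b : ℝ) + 3)) + 6 + β) * Real.log q := by
  have hq3 : (3 : ℝ) ≤ (q : ℝ) := by exact_mod_cast hq
  have hb0 : (0 : ℝ) ≤ (b : ℝ) := by positivity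
  have h1 : Real.log ((q : ℝ) + 1) ≤ 2 * Real.log q := by
    have : Real.log ((q : ℝ) + 1) ≤ Real.log ((q : ℝ) ^ 2) :=
      Real.log_le_log (by positivity) (by nlinarith)
    rw [Real.log_pow] at this
    push_cast at this
    exact this
  have h2 : Real.log (6 * (2 * (b : ℝ) + 3) * ((q : ℝ) + 1) ^ 3) =
      Real.log (6 * (2 * (b : ℝ) + 3)) + 3 * Real.log ((q : ℝ) + 1) := by
    rw [Real.log_mul (by positivity) (by positivity), Real.log_pow]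
    push_cast
    ring
  have h3 : (q : ℝ) / (((q ^ 2 : ℕ)) : ℝ) * Real.log N ≤ β := by
    push_cast
    have : (q : ℝ) / (q : ℝ) ^ 2 = 1 / q := by
      field_simp
    rw [this, one_div_mul_eq_div, div_le_iff₀ (by positivity)]
    exact hl
  have h4 : 0 ≤ Real.log (6 * (2 * (b : ℝ) + 3)) := Real.log_nonneg (by linarith)
  rw [kP, h2]
  nlinarith

theorem ER2 : ER2_stmt := by
  intro m b k s ε δ hm hb hk hs hε hδ
  have hb' : (1 : ℝ) ≤ (b : ℝ) := by exact_mod_cast hb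
  have hm' : (1 : ℝ) ≤ (m : ℝ) := by exact_mod_cast hm
  have hk' : (1 : ℝ) ≤ (k : ℝ) := by exact_mod_cast hk
  have hs' : (2 : ℝ) ≤ (s : ℝ) := by exact_mod_cast hs
  have hβ : 0 < Real.log (1 + (b : ℝ) / (m : ℝ)) := by
    apply Real.log_pos
    have : 0 < (b : ℝ) / (m : ℝ) := by positivity
    linarith
  set β := Real.log (1 + (b : ℝ) / (m : ℝ)) with hβd
  have hlb : 0 < Real.log (2 * (b : ℝ) + 3) := Real.log_pos (by linarith)
  have hlb1 : 0 ≤ Real.log (1 + (b : ℝ)) := Real.log_nonneg (by linarith)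
  have hlb6 : 0 ≤ Real.log (6 * (2 * (b : ℝ) + 3)) := Real.log_nonneg (by linarith)
  set F := Real.log (6 * (m : ℝ) +
      6 * (2 * (m : ℝ) * (β + Real.log (1 + b) + 1) + 1) + 1) + 9 with hF
  have hF0 : 0 ≤ F := by
    have : 0 ≤ Real.log (6 * (m : ℝ) +
      6 * (2 * (m : ℝ) * (β + Real.log (1 + b) + 1) + 1) + 1) := by
      apply Real.log_nonneg
      have : 0 ≤ 2 * (m : ℝ) * (β + Real.log (1 + b) + 1) := by positivity
      linarith
    linarith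
  set P := Real.log (6 * (2 * (b : ℝ) + 3)) + 6 + β with hP
  have hP0 : 0 ≤ P := by positivity
  set R1 := Real.log (2 * (b : ℝ) + 3) + 2 + 2 * β with hR1
  have hR10 : 0 ≤ R1 := by positivity
  set K := 1 + (R1 + 3 * (F + P)) / β + 4 * (m : ℝ) * (s : ℝ) + (m : ℝ) with hK
  have hp2 : 0 ≤ (R1 + 3 * (F + P)) / β := by positivity
  have hK0 : 0 ≤ K := by positivity
  obtain ⟨N₀, hN₀⟩ := ER1_base m b ε δ K hm hb hε hδ
  refine ⟨N₀, fun N hN l q hl hq => ?_⟩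
  obtain ⟨a1, a2, a3, a4, a5, a6, a7, a8⟩ := hN₀ N hN l q hl hq
  have hq3 : (3 : ℝ) ≤ (q : ℝ) := by exact_mod_cast a2
  have hN0 : 0 ≤ Real.log N := Real.log_nonneg (by exact_mod_cast a1)
  have hlN : Real.log N = β * l := by
    rw [hl]
    field_simp
  have hlq : l ≤ q := by linarith
  have hNq : Real.log N ≤ β * q := by
    rw [hlN]
    exact mul_le_mul_of_nonneg_left hlq hβ.le
  have hkF := ER2_kF N m b q β hm a2 hβ hN0 hNq a3
  have hkP := ER2_kP N b q β a2 hβ hNq a3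
  rw [← hF] at hkF
  rw [← hP] at hkP
  set L := Real.log q with hL
  have h1 : Real.log ((q : ℝ) + 1) ≤ 2 * L := by
    have : Real.log ((q : ℝ) + 1) ≤ Real.log ((q : ℝ) ^ 2) :=
      Real.log_le_log (by positivity) (by nlinarith)
    rw [Real.log_pow] at this
    push_cast at this
    exact this
  have hL0 : 0 ≤ L := by linarith
  have hqL : 1 ≤ (q : ℝ) * L := by nlinarith
  have hLq : L ≤ (q : ℝ) * L := by nlinarith
  have hqq : (q : ℝ) ≤ (q : ℝ) * L := by nlinarith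
  have hR : Real.log (2 * (b : ℝ) + 3) + Real.log ((q : ℝ) + 1) + 2 * Real.log N ≤
      R1 * (q * L) := by
    have e1 : Real.log (2 * (b : ℝ) + 3) ≤ Real.log (2 * (b : ℝ) + 3) * (q * L) :=
      le_mul_of_one_le_right hlb.le hqL
    have e2 : 2 * β * q ≤ 2 * β * (q * L) := mul_le_mul_of_nonneg_left hqq (by positivity)
    have e3 : R1 * (q * L) = Real.log (2 * (b : ℝ) + 3) * (q * L) + 2 * (q * L) +
      2 * β * (q * L) := by rw [hR1]; ring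
    linarith
  have hsum : ((q : ℝ) + 2) * (kF N m b q (q ^ 2) + kP N q (q ^ 2) (2 * (b : ℝ) + 3)) ≤
      3 * (F + P) * (q * L) := by
    have e1 : kF N m b q (q ^ 2) + kP N q (q ^ 2) (2 * (b : ℝ) + 3) ≤ (F + P) * L := by
      linarith
    have e2 : (0 : ℝ) ≤ (F + P) * L := by positivity
    calc ((q : ℝ) + 2) * (kF N m b q (q ^ 2) + kP N q (q ^ 2) (2 * (b : ℝ) + 3))
        ≤ ((q : ℝ) + 2) * ((F + P) * L) := mul_le_mul_of_nonneg_left e1 (by positivity)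
      _ ≤ (3 * q) * ((F + P) * L) := mul_le_mul_of_nonneg_right (by linarith) e2
      _ = 3 * (F + P) * (q * L) := by ring
  have hdiv : (Real.log (2 * (b : ℝ) + 3) + Real.log ((q : ℝ) + 1) + 2 * Real.log N +
      ((q : ℝ) + 2) * (kF N m b q (q ^ 2) + kP N q (q ^ 2) (2 * (b : ℝ) + 3))) / β ≤
      (R1 + 3 * (F + P)) / β * (q * L) := by
    rw [div_mul_eq_mul_div, div_le_div_iff_of_pos_right hβ]
    have : (R1 + 3 * (F + P)) * (q * L) = R1 * (q * L) + 3 * (F + P) * (q * L) := by ring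
    linarith
  have hms : 4 * (m : ℝ) * (s : ℝ) * l ≤ 4 * (m : ℝ) * (s : ℝ) * (q * L) :=
    mul_le_mul_of_nonneg_left (by linarith) (by positivity)
  have hmm : (m : ℝ) ≤ (m : ℝ) * (q * L) := le_mul_of_one_le_right (by positivity) hqL
  have hkl : (q : ℝ) / (k : ℝ) * l ≤ (q : ℝ) ^ 2 / (k : ℝ) := by
    have : (q : ℝ) ^ 2 / (k : ℝ) = (q : ℝ) / (k : ℝ) * q := by ring
    rw [this]
    exact mul_le_mul_of_nonneg_left hlq (by positivity)
  have hfin : K * (q * L) ≤ δ * (q : ℝ) ^ 2 := by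
    have e1 : L ≤ L ^ 2 := by nlinarith
    have e2 : K * L ≤ δ * q := le_trans (mul_le_mul_of_nonneg_left e1 hK0) a8
    calc K * (q * L) = (K * L) * q := by ring
      _ ≤ (δ * q) * q := mul_le_mul_of_nonneg_right e2 (by positivity)
      _ = δ * (q : ℝ) ^ 2 := by ring
  have hKe : K * (q * L) = q * L + (R1 + 3 * (F + P)) / β * (q * L) +
      4 * (m : ℝ) * (s : ℝ) * (q * L) + (m : ℝ) * (q * L) := by
    rw [hK]; ring
  rw [er, ← hβd, ← hl]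
  linarith

end Pool.Agent.helper42.CQ
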