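import Pool.Agent.helper42.CQ.SpecC

set_option autoImplicit false

namespace Pool.Agent.helper42.CQ

open Finset Pool.Agent.helper24.CG

/-- common asymptotics -/
theorem ER1_base (m b : ℕ) (ε δ K : ℝ) (hm : 1 ≤ m) (hb : 1 ≤ b) (hε : 0 < ε) (hδ : 0 < δ) :
    ∃ N₀ : ℕ, ∀ N ≥ N₀, ∀ (l : ℝ) (q : ℕ),
      l = Real.log N / Real.log (1 + (b : ℝ) / (m : ℝ)) → q = ⌈(2 + ε) * l⌉₊ →
      1 ≤ N ∧ 3 ≤ q ∧ 1 ≤ Real.log q ∧ 0 ≤ l ∧ (2 + ε) * l ≤ q ∧ K < l ∧ 2 * l ≤ q ∧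
        K * Real.log q ^ 2 ≤ δ * q := by
  have hb' : (1 : ℝ) ≤ (b : ℝ) := by exact_mod_cast hb
  have hm' : (1 : ℝ) ≤ (m : ℝ) := by exact_mod_cast hm
  have hβ : 0 < Real.log (1 + (b : ℝ) / (m : ℝ)) := by
    apply Real.log_pos
    have : 0 < (b : ℝ) / (m : ℝ) := by positivity
    linarith
  set β := Real.log (1 + (b : ℝ) / (m : ℝ)) with hβd
  have hl : Filter.Tendsto (fun N : ℕ => Real.log (N : ℝ) / β) Filter.atTop Filter.atTop :=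
    (Real.tendsto_log_atTop.comp tendsto_natCast_atTop_atTop).atTop_div_const hβ
  have h2 : Filter.Tendsto (fun N : ℕ => (2 + ε) * (Real.log (N : ℝ) / β)) Filter.atTop
      Filter.atTop := hl.const_mul_atTop (by linarith)
  have hq : Filter.Tendsto (fun N : ℕ => ⌈(2 + ε) * (Real.log (N : ℝ) / β)⌉₊) Filter.atTop
      Filter.atTop := tendsto_nat_ceil_atTop.comp h2
  have hqr : Filter.Tendsto (fun N : ℕ => ((⌈(2 + ε) * (Real.log (N : ℝ) / β)⌉₊ : ℕ) : ℝ))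
      Filter.atTop Filter.atTop := tendsto_natCast_atTop_atTop.comp hq
  have hK : 0 < |K| + 1 := by positivity
  have e1 : ∀ᶠ x : ℝ in Filter.atTop, (|K| + 1) * Real.log x ^ 2 ≤ δ * x := by
    have h := (Real.isLittleO_pow_log_id_atTop (n := 2)).def (c := δ / (|K| + 1)) (by positivity)
    filter_upwards [h, Filter.eventually_ge_atTop 0] with x hx hx0
    have hsq : |Real.log x ^ 2| = Real.log x ^ 2 := abs_of_nonneg (sq_nonneg _)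
    simp only [id, Real.norm_eq_abs, abs_of_nonneg hx0, hsq] at hx
    rw [div_mul_eq_mul_div, le_div_iff₀ hK] at hx
    linarith
  have e2 : ∀ᶠ x : ℝ in Filter.atTop, 1 ≤ Real.log x :=
    Real.tendsto_log_atTop.eventually_ge_atTop 1
  have ev : ∀ᶠ N : ℕ in Filter.atTop, 1 ≤ N ∧ 3 ≤ ⌈(2 + ε) * (Real.log (N : ℝ) / β)⌉₊ ∧
      1 ≤ Real.log ((⌈(2 + ε) * (Real.log (N : ℝ) / β)⌉₊ : ℕ) : ℝ) ∧
      |K| + 1 ≤ Real.log (N : ℝ) / β ∧
      (|K| + 1) * Real.log ((⌈(2 + ε) * (Real.log (N : ℝ) / β)⌉₊ : ℕ) : ℝ) ^ 2 ≤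
        δ * ((⌈(2 + ε) * (Real.log (N : ℝ) / β)⌉₊ : ℕ) : ℝ) := by
    filter_upwards [Filter.eventually_ge_atTop 1, hq.eventually_ge_atTop 3, hqr.eventually e2,
      hl.eventually_ge_atTop (|K| + 1), hqr.eventually e1] with N a1 a2 a3 a4 a5
    exact ⟨a1, a2, a3, a4, a5⟩
  obtain ⟨N₀, hN₀⟩ := Filter.eventually_atTop.1 ev
  refine ⟨N₀, fun N hN l q hl' hq' => ?_⟩
  subst hl'
  subst hq'
  obtain ⟨a1, a2, a3, a4, a5⟩ := hN₀ N hN
  have hKK : K ≤ |K| := le_abs_self K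
  have hl0 : 0 ≤ Real.log (N : ℝ) / β := by
    have := abs_nonneg K
    linarith
  have hc : (2 + ε) * (Real.log (N : ℝ) / β) ≤
      ((⌈(2 + ε) * (Real.log (N : ℝ) / β)⌉₊ : ℕ) : ℝ) := Nat.le_ceil _
  refine ⟨a1, a2, a3, hl0, hc, by linarith, ?_, ?_⟩
  · have : 0 ≤ ε * (Real.log (N : ℝ) / β) := by positivity
    nlinarith
  · refine le_trans ?_ a5
    apply mul_le_mul_of_nonneg_right _ (sq_nonneg _)
    linarith

/-- the bound for `M` and the power -/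
theorem ER1_M (k q M : ℕ) (hk : 1 ≤ k) (hq : 3 ≤ q) (hL : 1 ≤ Real.log q)
    (hM : M = ⌈(k : ℝ) ^ 2 * (Real.log (2 * (k : ℝ) * (q : ℝ) ^ 2) + 1)⌉₊) :
    1 ≤ M ∧ (M : ℝ) ≤ ((k : ℝ) ^ 2 * (Real.log (2 * (k : ℝ)) + 3) + 1) * Real.log q ∧
      2 * (q : ℝ) ^ 2 * (k : ℝ) * (1 - 1 / (k : ℝ) ^ 2) ^ M < 1 := by
  have hk' : (1 : ℝ) ≤ (k : ℝ) := by exact_mod_cast hk
  have hq' : (3 : ℝ) ≤ (q : ℝ) := by exact_mod_cast hq
  have hlk : 0 < Real.log (2 * (k : ℝ)) := Real.log_pos (by linarith)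
  have hk2 : (1 : ℝ) ≤ (k : ℝ) ^ 2 := one_le_pow₀ hk'
  have hlog : Real.log (2 * (k : ℝ) * (q : ℝ) ^ 2) = Real.log (2 * (k : ℝ)) + 2 * Real.log q := by
    rw [Real.log_mul (by positivity) (by positivity), Real.log_pow]
    push_cast
    ring
  have hpos : 0 < (k : ℝ) ^ 2 * (Real.log (2 * (k : ℝ) * (q : ℝ) ^ 2) + 1) := by
    rw [hlog]
    positivity
  have hM1 : 1 ≤ M := by
    rw [hM]
    exact Nat.one_le_iff_ne_zero.2 (Nat.ceil_pos.2 hpos).ne'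
  have hMle : (k : ℝ) ^ 2 * (Real.log (2 * (k : ℝ) * (q : ℝ) ^ 2) + 1) ≤ (M : ℝ) := by
    rw [hM]
    exact Nat.le_ceil _
  have hMlt : (M : ℝ) < (k : ℝ) ^ 2 * (Real.log (2 * (k : ℝ) * (q : ℝ) ^ 2) + 1) + 1 := by
    rw [hM]
    exact Nat.ceil_lt_add_one hpos.le
  refine ⟨hM1, ?_, ?_⟩
  · rw [hlog] at hMlt
    have h1 : Real.log (2 * (k : ℝ)) + 2 * Real.log q + 1 ≤
        (Real.log (2 * (k : ℝ)) + 3) * Real.log q := by nlinarith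
    have h2 : (k : ℝ) ^ 2 * (Real.log (2 * (k : ℝ)) + 2 * Real.log q + 1) ≤
        (k : ℝ) ^ 2 * ((Real.log (2 * (k : ℝ)) + 3) * Real.log q) :=
      mul_le_mul_of_nonneg_left h1 (by positivity)
    nlinarith
  · have h0 : 0 ≤ 1 - 1 / (k : ℝ) ^ 2 := by
      rw [sub_nonneg, div_le_one (by positivity)]
      exact hk2
    have h1 : 1 - 1 / (k : ℝ) ^ 2 ≤ Real.exp (-(1 / (k : ℝ) ^ 2)) := by
      have := Real.add_one_le_exp (-(1 / (k : ℝ) ^ 2))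
      linarith
    have h2 : (1 - 1 / (k : ℝ) ^ 2) ^ M ≤ Real.exp (-(1 / (k : ℝ) ^ 2)) ^ M :=
      pow_le_pow_left₀ h0 h1 M
    rw [← Real.exp_nat_mul] at h2
    have h3 : (M : ℝ) * (-(1 / (k : ℝ) ^ 2)) ≤ -(Real.log (2 * (k : ℝ) * (q : ℝ) ^ 2) + 1) := by
      have h4 : (M : ℝ) * (1 / (k : ℝ) ^ 2) ≥ Real.log (2 * (k : ℝ) * (q : ℝ) ^ 2) + 1 := by
        rw [mul_one_div, ge_iff_le, le_div_iff₀ (by positivity)]
        linarith
      linarith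
    have h4 : Real.exp ((M : ℝ) * (-(1 / (k : ℝ) ^ 2))) <
        Real.exp (-(Real.log (2 * (k : ℝ) * (q : ℝ) ^ 2))) := by
      apply Real.exp_lt_exp.2
      linarith
    rw [Real.exp_neg, Real.exp_log (by positivity)] at h4
    have h5 : (1 - 1 / (k : ℝ) ^ 2) ^ M < (2 * (k : ℝ) * (q : ℝ) ^ 2)⁻¹ := lt_of_le_of_lt h2 h4
    have h6 : 0 < 2 * (k : ℝ) * (q : ℝ) ^ 2 := by positivity
    calc 2 * (q : ℝ) ^ 2 * (k : ℝ) * (1 - 1 / (k : ℝ) ^ 2) ^ M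
        = (2 * (k : ℝ) * (q : ℝ) ^ 2) * (1 - 1 / (k : ℝ) ^ 2) ^ M := by ring
      _ < (2 * (k : ℝ) * (q : ℝ) ^ 2) * (2 * (k : ℝ) * (q : ℝ) ^ 2)⁻¹ :=
          mul_lt_mul_of_pos_left h5 h6
      _ = 1 := mul_inv_cancel₀ h6.ne'

theorem ER1 : ER1_stmt := by
  intro m b k s ε δ hm hb hk hs hε hδ
  have hb' : (1 : ℝ) ≤ (b : ℝ) := by exact_mod_cast hb
  have hm' : (1 : ℝ) ≤ (m : ℝ) := by exact_mod_cast hm
  have hk' : (1 : ℝ) ≤ (k : ℝ) := by exact_mod_cast hk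
  have hs' : (2 : ℝ) ≤ (s : ℝ) := by exact_mod_cast hs
  have hβ : 0 < Real.log (1 + (b : ℝ) / (m : ℝ)) := by
    apply Real.log_pos
    have : 0 < (b : ℝ) / (m : ℝ) := by positivity
    linarith
  set β := Real.log (1 + (b : ℝ) / (m : ℝ)) with hβd
  have hlk : 0 < Real.log (2 * (k : ℝ)) := Real.log_pos (by linarith)
  have hlb : 0 < Real.log (2 * (b : ℝ) + 3) := Real.log_pos (by linarith)
  set C := (k : ℝ) ^ 2 * (Real.log (2 * (k : ℝ)) + 3) + 1 with hC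
  have hC0 : 0 < C := by positivity
  set K := 2 * (m : ℝ) * C ^ 2 + s + 2 + (2 + Real.log (2 * (b : ℝ) + 3)) / β +
    2 * (m : ℝ) * (s : ℝ) + 4 * (m : ℝ) with hK
  have hp1 : 0 ≤ 2 * (m : ℝ) * C ^ 2 := by positivity
  have hp2 : 0 ≤ (2 + Real.log (2 * (b : ℝ) + 3)) / β := by positivity
  have hp3 : 0 ≤ 2 * (m : ℝ) * (s : ℝ) := by positivity
  obtain ⟨N₀, hN₀⟩ := ER1_base m b ε δ K hm hb hε hδ
  refine ⟨N₀, fun N hN l q M hl hq hM => ?_⟩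
  obtain ⟨a1, a2, a3, a4, a5, a6, a7, a8⟩ := hN₀ N hN l q hl hq
  obtain ⟨c1, c2, c3⟩ := ER1_M k q M hk a2 a3 hM
  have hq3 : (3 : ℝ) ≤ (q : ℝ) := by exact_mod_cast a2
  have hL2 : 1 ≤ Real.log q ^ 2 := one_le_pow₀ a3
  -- everything is at most `c * q * L^2`
  have main : ∀ c : ℝ, c ≤ K → c * Real.log q ^ 2 * q ≤ δ * (q : ℝ) ^ 2 := by
    intro c hc
    have h1 : c * Real.log q ^ 2 ≤ δ * q :=
      le_trans (mul_le_mul_of_nonneg_right hc (by positivity)) a8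
    calc c * Real.log q ^ 2 * q ≤ (δ * q) * q := mul_le_mul_of_nonneg_right h1 (by positivity)
      _ = δ * (q : ℝ) ^ 2 := by ring
  have hMM : (M : ℝ) ^ 2 ≤ C ^ 2 * Real.log q ^ 2 := by
    have h : (M : ℝ) ^ 2 ≤ (C * Real.log q) ^ 2 := pow_le_pow_left₀ (by positivity) c2 2
    rwa [mul_pow] at h
  have hqM : 2 * (q : ℝ) * m * (M : ℝ) ^ 2 ≤ 2 * (m : ℝ) * C ^ 2 * Real.log q ^ 2 * q := by
    calc 2 * (q : ℝ) * m * (M : ℝ) ^ 2 ≤ 2 * (q : ℝ) * m * (C ^ 2 * Real.log q ^ 2) :=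
          mul_le_mul_of_nonneg_left hMM (by positivity)
      _ = 2 * (m : ℝ) * C ^ 2 * Real.log q ^ 2 * q := by ring
  have hone : ∀ c : ℝ, 0 ≤ c → (q : ℝ) * c ≤ c * Real.log q ^ 2 * q := by
    intro c hc
    have : c * q * 1 ≤ c * q * Real.log q ^ 2 := mul_le_mul_of_nonneg_left hL2 (by positivity)
    linarith
  refine ⟨a1, by omega, c1, a4, a5, c3, by linarith, by linarith, ?_, ?_, ?_, ?_⟩
  · have h1 := main (2 * (m : ℝ) * C ^ 2 + s) (by linarith)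
    have h2 := hone s (by positivity)
    have h3 : (2 * (m : ℝ) * C ^ 2 + s) * Real.log q ^ 2 * q =
      2 * (m : ℝ) * C ^ 2 * Real.log q ^ 2 * q + s * Real.log q ^ 2 * q := by ring
    linarith
  · have h1 := main (2 * (m : ℝ) * C ^ 2 + 2) (by linarith)
    have h2 := hone 2 (by positivity)
    have h3 : (2 * (m : ℝ) * C ^ 2 + 2) * Real.log q ^ 2 * q =
      2 * (m : ℝ) * C ^ 2 * Real.log q ^ 2 * q + 2 * Real.log q ^ 2 * q := by ring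
    linarith
  · have h1 := main ((2 + Real.log (2 * (b : ℝ) + 3)) / β) (by linarith)
    have h2 := hone ((2 + Real.log (2 * (b : ℝ) + 3)) / β) hp2
    have h3 : Real.log ((q : ℝ) + 1) ≤ q := by
      have := Real.log_le_sub_one_of_pos (show (0 : ℝ) < (q : ℝ) + 1 by positivity)
      linarith
    have h4 : (Real.log ((q : ℝ) + 1) + Real.log (2 * (b : ℝ) + 3)) / β ≤
        (q : ℝ) * ((2 + Real.log (2 * (b : ℝ) + 3)) / β) := by
      rw [mul_div_assoc', div_le_div_iff_of_pos_right hβ]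
      nlinarith
    linarith
  · have h1 := main 1 (by linarith)
    have h2 := hone 1 (by positivity)
    linarith

end Pool.Agent.helper42.CQ
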